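import Mathlib
import Pool.Agent.TH222.QP7

/-!
Quasi-proper maps of two-sheeted coverings of the disc.

The surfaces of the question are, up to isomorphism, the surfaces `w ^ 2 = B z` over the unit disc,
where `B` is an infinite Blaschke product with simple zeros `β k`. On every one of them we construct
a quasi-proper map which is not a finite or infinite product of members of the class `L`.

The map is `(c - ξ) / (1 - conj ξ * c)` with `c = (s + w - 2 s w) / (2 - s - w)`, where
`s = conj ζ * z`, the point `ζ` of the unit circle is an accumulation point of the branch values,
and `ξ` is a suitable point with `|ξ| = 1/2`, found by a theorem of Frostman type. The modulus of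
this map tends to `1` along a subsequence of the branch points, which is impossible for a product
of members of `L` that is not invariant under the interchange of sheets.
-/

set_option autoImplicit false

namespace Pool.Agent.Results.MP_fa6e01_an.NotProducts

open Pool.Agent.TH222.QP

/-- On every surface `w ^ 2 = B z` some quasi-proper map is not a finite or infinite product of
members of the class `L` (not even of the larger class `Member`). -/
theorem result : ∀ β : ℕ → ℂ, Function.Injective β → BSeq β →
    ∃ θ : Cover β → ℂ, QuasiProper β θ ∧ ¬ IsProduct β θ :=
  fun _ _ h => main h

end Pool.Agent.Results.MP_fa6e01_an.NotProducts
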